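import Pool.Agent.Lib.FK640.StarMain
import Pool.Agent.Lib.FK640.FinM0

/-!
# Finite-dimensional subalgebras of Fomin-Kirillov algebras
-/

set_option autoImplicit false

namespace Pool.Agent.Results.MP_640ac5_al.FiniteSide

open Pool.Agent.Lib.FK640 Pool.Agent.Lib.FK640.FinM

/-- (1) For every `n` and every graph `G` on `Fin n` all of whose edges are edges of some copy of
the graph `M0` with the edges 14, 16, 23, 24, 25, 34, 35, the Fomin-Kirillov subalgebra `E_G` is
finite-dimensional. (2) For every graph `G` on six vertices which is contained in `M0` or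
disconnected, `E_G` is finite-dimensional and `G` contains none of `H_1, …, H_7`. -/
theorem result :
    (∀ (n : ℕ) (f : Fin 6 ↪ Fin n) (G : SimpleGraph (Fin n)), G ≤ M0.map f →
      Module.Finite ℚ (subE G)) ∧
    (∀ G : SimpleGraph (Fin 6), G.IsContained M0 ∨ ¬ G.Preconnected →
      Module.Finite ℚ (subE G) ∧ ∀ k : Fin 7, ¬ (H k).IsContained G) := by
  refine ⟨fun n f G h => (finite_subE_iff G).2 (finite_of_M0 G f h), fun G h => ?_⟩
  have hfin : Module.Finite ℚ (EG G) := by
    rcases h with h | h
    · exact finite_of_contained G h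
    · exact finite_of_not_preconnected G h
  exact ⟨(finite_subE_iff G).2 hfin, fun k hk => not_finite_all G k hk hfin⟩

end Pool.Agent.Results.MP_640ac5_al.FiniteSide
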