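import Pool.Agent.Lib.FK640.StarMain

/-!
# Infinite-dimensional subalgebras of Fomin-Kirillov algebras
-/

set_option autoImplicit false

namespace Pool.Agent.Results.MP_640ac5_al.InfiniteSide

open Pool.Agent.Lib.FK640

/-- For every `n` and every graph `G` on `Fin n` that contains a subgraph isomorphic to one of
`H_1, …, H_7` (here `H 0, …, H 6`), the Fomin-Kirillov subalgebra `E_G` is infinite-dimensional. -/
theorem result (n : ℕ) (G : SimpleGraph (Fin n)) (k : Fin 7) (h : (H k).IsContained G) :
    ¬ Module.Finite ℚ (subE G) := fun hf =>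
  not_finite_all G k h ((finite_subE_iff G).1 hf)

end Pool.Agent.Results.MP_640ac5_al.InfiniteSide
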